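import Pool.Agent.W325.KZ.Defs

/-! KZ-BLK (MP_9bdf03_pr): typical noise in dyadic blocks. -/

set_option autoImplicit false

open Finset MeasureTheory ProbabilityTheory Filter Topology

namespace Pool.Agent.W465.KZ
open Pool.Agent.W325.KZ

lemma tail (c : ℝ) (hc : 0 < c) (l : ℕ) :
    ga {a : ℕ → ℝ | c < |a l|} ≤ ENNReal.ofReal (1 / c ^ 2) := by
  have hmap : ga.map (fun a : ℕ → ℝ => a l) = gaussianReal 0 1 := Measure.infinitePi_map_eval _ l
  have hms : MeasurableSet {x : ℝ | c < |x|} :=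
    measurableSet_lt measurable_const continuous_abs.measurable
  have h1 : ga {a : ℕ → ℝ | c < |a l|} = gaussianReal 0 1 {x : ℝ | c < |x|} := by
    rw [← hmap, Measure.map_apply (measurable_pi_apply l) hms]
    rfl
  rw [h1]
  have h2 := meas_ge_le_variance_div_sq (μ := gaussianReal 0 1) (X := id)
    (memLp_id_gaussianReal' 2 (by norm_num)) hc
  rw [variance_id_gaussianReal] at h2
  have h3 : ∫ x, id x ∂(gaussianReal 0 1) = 0 := by
    simp
  rw [h3] at h2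
  refine le_trans (measure_mono fun x hx => ?_) h2
  show c ≤ |id x - 0|
  rw [sub_zero]
  exact (le_of_lt hx)

lemma sq2 (i : ℕ) : Real.sqrt ((2 ^ i : ℕ) : ℝ) = Real.sqrt 2 ^ i := by
  rw [Real.sqrt_eq_iff_mul_self_eq (by positivity) (by positivity), ← mul_pow,
    Real.mul_self_sqrt (by norm_num)]
  push_cast
  rfl

lemma geo (M : ℕ) : ∑ i ∈ range M, Real.sqrt 2 ^ i ≤ 3 * Real.sqrt 2 ^ M := by
  induction M with
  | zero => simp
  | succ M ih =>
    rw [sum_range_succ, pow_succ]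
    have h1 : (0 : ℝ) < Real.sqrt 2 ^ M := by positivity
    have h2 : (4 / 3 : ℝ) ≤ Real.sqrt 2 := by
      apply Real.le_sqrt_of_sq_le
      norm_num
    nlinarith

lemma pow_bd {y : ℝ} (h0 : 0 ≤ y) (h1 : y ≤ 1) (n : ℕ) : y ^ n * (1 + n * (1 - y)) ≤ 1 := by
  have h2 : 1 + (n : ℝ) * (1 - y) ≤ (1 + (1 - y)) ^ n := one_add_mul_le_pow (by linarith) n
  calc y ^ n * (1 + n * (1 - y)) ≤ y ^ n * (1 + (1 - y)) ^ n :=
        mul_le_mul_of_nonneg_left h2 (by positivity)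
    _ = (y * (1 + (1 - y))) ^ n := (mul_pow _ _ _).symm
    _ ≤ 1 := pow_le_one₀ (by nlinarith) (by nlinarith)

lemma key {y : ℝ} (h0 : 0 ≤ y) (h1 : y < 1) (M : ℕ) :
    (∑ i ∈ range M, Real.sqrt 2 ^ i * y ^ (2 ^ i)) * Real.sqrt (1 - y) ≤
      7 * (Real.sqrt 2 ^ M * Real.sqrt (1 - y) / (1 + Real.sqrt 2 ^ M * Real.sqrt (1 - y))) := by
  have ht : 0 < Real.sqrt (1 - y) := Real.sqrt_pos.2 (by linarith)
  induction M with
  | zero =>
    simp only [range_zero, sum_empty, zero_mul]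
    positivity
  | succ M ih =>
    rw [sum_range_succ, add_mul]
    set s : ℝ := Real.sqrt 2 ^ M * Real.sqrt (1 - y) with hs
    have hs0 : 0 < s := by positivity
    have hs2 : s ^ 2 = (2 ^ M : ℕ) * (1 - y) := by
      rw [hs, mul_pow, Real.sq_sqrt (by linarith), ← pow_mul, mul_comm M 2, pow_mul,
        Real.sq_sqrt (by norm_num)]
      push_cast
      ring
    have e1 : Real.sqrt 2 ^ (M + 1) * Real.sqrt (1 - y) = Real.sqrt 2 * s := by
      rw [hs, pow_succ]; ring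
    have e2 : Real.sqrt 2 ^ M * y ^ (2 ^ M) * Real.sqrt (1 - y) = s * y ^ (2 ^ M) := by
      rw [hs]; ring
    rw [e1, e2]
    have h3 : y ^ (2 ^ M) * (1 + s ^ 2) ≤ 1 := by
      rw [hs2]
      exact pow_bd h0 h1.le (2 ^ M)
    have h4 : s * y ^ (2 ^ M) ≤ s / (1 + s ^ 2) := by
      rw [le_div_iff₀ (by positivity)]
      nlinarith
    have h5 : s / (1 + s ^ 2) ≤ 7 * (Real.sqrt 2 * s / (1 + Real.sqrt 2 * s)) - 7 * (s / (1 + s)) := by
      have hr : (1.4 : ℝ) ≤ Real.sqrt 2 := by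
        apply Real.le_sqrt_of_sq_le
        norm_num
      have hr2 : Real.sqrt 2 ≤ 1.5 := by
        rw [Real.sqrt_le_left (by norm_num)]
        norm_num
      set r := Real.sqrt 2
      have e3 : 7 * (r * s / (1 + r * s)) - 7 * (s / (1 + s)) =
          7 * ((r - 1) * s) / ((1 + r * s) * (1 + s)) := by
        field_simp
        ring
      rw [e3, div_le_div_iff₀ (by positivity) (by positivity)]
      have e4 : (1 + r * s) * (1 + s) ≤ 7 * (r - 1) * (1 + s ^ 2) := by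
        nlinarith [sq_nonneg (s - 1), mul_nonneg (sub_nonneg.2 hr) (sq_nonneg s),
          mul_nonneg (sub_nonneg.2 hr2) hs0.le, mul_nonneg (sub_nonneg.2 hr2) (sq_nonneg s)]
      nlinarith
    linarith

lemma pol_dec (b : ℕ → ℝ) (M : ℕ) (y : ℝ) : pol b (2 ^ M) y =
    b 0 + ∑ i ∈ range M, y ^ (2 ^ i) * pol (fun l => b (2 ^ i + l)) (2 ^ i) y := by
  induction M with
  | zero => simp [pol]
  | succ M ih =>
    rw [sum_range_succ, ← add_assoc, ← ih]
    unfold pol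
    rw [pow_succ, mul_two, sum_range_add, mul_sum]
    congr 1
    apply sum_congr rfl
    intro l _
    rw [pow_add]
    ring

/-- the typical event of one block -/
def EA (C₀ : ℝ) (i : ℕ) : Set (ℕ → ℝ) :=
  {a | ∀ t : ℝ, |t| ≤ 1 → |pol a (2 ^ i) t| ≤ C₀ * Real.sqrt ((2 ^ i : ℕ) : ℝ)} ∩
    {a | ∀ l < 2 ^ i, |a l| ≤ 2 * ((2 ^ i : ℕ) : ℝ)}

lemma EA_meas {C₀ : ℝ} (i : ℕ) (hm : MeasurableSet {a : ℕ → ℝ | ∀ t : ℝ, |t| ≤ 1 →
    |pol a (2 ^ i) t| ≤ C₀ * Real.sqrt ((2 ^ i : ℕ) : ℝ)}) : MeasurableSet (EA C₀ i) := by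
  refine hm.inter ?_
  have : {a : ℕ → ℝ | ∀ l < 2 ^ i, |a l| ≤ 2 * ((2 ^ i : ℕ) : ℝ)} =
      ⋂ l : ℕ, ⋂ _ : l < 2 ^ i, {a : ℕ → ℝ | |a l| ≤ 2 * ((2 ^ i : ℕ) : ℝ)} := by
    ext a; simp
  rw [this]
  exact MeasurableSet.iInter fun l => MeasurableSet.iInter fun _ =>
    measurableSet_le (continuous_abs.measurable.comp (measurable_pi_apply l)) measurable_const

lemma EA_dep (C₀ : ℝ) (i : ℕ) : DependsOn (fun a => a ∈ EA C₀ i) {k | k < 2 ^ i} := by
  intro x y hxy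
  have h1 : ∀ t, pol x (2 ^ i) t = pol y (2 ^ i) t := by
    intro t
    unfold pol
    apply sum_congr rfl
    intro k hk
    rw [hxy k (mem_range.1 hk)]
  have h2 : ∀ l < 2 ^ i, x l = y l := fun l hl => hxy l hl
  unfold EA
  simp only [Set.mem_inter_iff, Set.mem_ofPred_eq, h1]
  apply propext
  apply and_congr_right
  intro _
  constructor
  · intro h l hl
    rw [← h2 l hl]; exact h l hl
  · intro h l hl
    rw [h2 l hl]; exact h l hl

lemma pol_neg (a : ℕ → ℝ) (n : ℕ) (t : ℝ) : pol (fun k => -a k) n t = -pol a n t := by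
  unfold pol
  rw [← sum_neg_distrib]
  apply sum_congr rfl
  intro k _
  ring

lemma EA_neg {C₀ : ℝ} {i : ℕ} {a : ℕ → ℝ} (h : a ∈ EA C₀ i) : (fun k => -a k) ∈ EA C₀ i := by
  obtain ⟨h1, h2⟩ := h
  refine ⟨fun t ht => ?_, fun l hl => ?_⟩
  · rw [pol_neg, abs_neg]; exact h1 t ht
  · rw [abs_neg]; exact h2 l hl

lemma half_of_compl {A : Set (ℕ → ℝ)} (hA : MeasurableSet A) (h : ga Aᶜ ≤ 2⁻¹) : 2⁻¹ ≤ ga A := by
  have h1 : ga A + ga Aᶜ = 1 := by
    rw [measure_add_measure_compl hA, measure_univ]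
  by_contra hlt
  push Not at hlt
  have : ga A + ga Aᶜ < 2⁻¹ + 2⁻¹ := ENNReal.add_lt_add_of_lt_of_le (measure_ne_top _ _) hlt h
  rw [h1, ENNReal.inv_two_add_inv_two] at this
  exact lt_irrefl _ this

lemma EA_prob {C₀ : ℝ} (i : ℕ) (hm : MeasurableSet {a : ℕ → ℝ | ∀ t : ℝ, |t| ≤ 1 →
      |pol a (2 ^ i) t| ≤ C₀ * Real.sqrt ((2 ^ i : ℕ) : ℝ)})
    (hp : ga {a : ℕ → ℝ | ∀ t : ℝ, |t| ≤ 1 →
      |pol a (2 ^ i) t| ≤ C₀ * Real.sqrt ((2 ^ i : ℕ) : ℝ)}ᶜ ≤ 4⁻¹) : 2⁻¹ ≤ ga (EA C₀ i) := by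
  apply half_of_compl (EA_meas i hm)
  have hsub : (EA C₀ i)ᶜ ⊆ {a : ℕ → ℝ | ∀ t : ℝ, |t| ≤ 1 →
      |pol a (2 ^ i) t| ≤ C₀ * Real.sqrt ((2 ^ i : ℕ) : ℝ)}ᶜ ∪
      ⋃ l ∈ range (2 ^ i), {a : ℕ → ℝ | 2 * ((2 ^ i : ℕ) : ℝ) < |a l|} := by
    intro a ha
    by_cases h1 : a ∈ {a : ℕ → ℝ | ∀ t : ℝ, |t| ≤ 1 →
      |pol a (2 ^ i) t| ≤ C₀ * Real.sqrt ((2 ^ i : ℕ) : ℝ)}
    · right
      have h2 : ¬ ∀ l < 2 ^ i, |a l| ≤ 2 * ((2 ^ i : ℕ) : ℝ) := fun h2 => ha ⟨h1, h2⟩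
      push Not at h2
      obtain ⟨l, hl, hl2⟩ := h2
      rw [Set.mem_iUnion₂]
      exact ⟨l, mem_range.2 hl, hl2⟩
    · left; exact h1
  refine (measure_mono hsub).trans ((measure_union_le _ _).trans ?_)
  have h2 : ga (⋃ l ∈ range (2 ^ i), {a : ℕ → ℝ | 2 * ((2 ^ i : ℕ) : ℝ) < |a l|}) ≤ 4⁻¹ := by
    refine (measure_biUnion_finset_le _ _).trans ?_
    have hc : (0 : ℝ) < 2 * ((2 ^ i : ℕ) : ℝ) := by positivity
    refine (sum_le_sum fun l _ => tail _ hc l).trans ?_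
    rw [sum_const, card_range, nsmul_eq_mul]
    have h5 : (((2 ^ i : ℕ) : ENNReal)) = ENNReal.ofReal ((2 ^ i : ℕ) : ℝ) :=
      (ENNReal.ofReal_natCast _).symm
    rw [h5, ← ENNReal.ofReal_mul (by positivity)]
    have h6 : (4⁻¹ : ENNReal) = ENNReal.ofReal (1 / 4) := by
      rw [one_div, ENNReal.ofReal_inv_of_pos (by norm_num)]
      norm_num
    rw [h6]
    apply ENNReal.ofReal_le_ofReal
    have h7 : (1 : ℝ) ≤ ((2 ^ i : ℕ) : ℝ) := by
      exact_mod_cast Nat.one_le_two_pow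
    rw [mul_one_div, div_le_div_iff₀ (by positivity) (by norm_num)]
    nlinarith
  calc _ ≤ (4⁻¹ : ENNReal) + 4⁻¹ := add_le_add hp h2
    _ = 2⁻¹ := by
      have h6 : (4⁻¹ : ENNReal) = ENNReal.ofReal (1 / 4) := by
        rw [one_div, ENNReal.ofReal_inv_of_pos (by norm_num)]
        norm_num
      have h7 : (2⁻¹ : ENNReal) = ENNReal.ofReal (1 / 2) := by
        rw [one_div, ENNReal.ofReal_inv_of_pos (by norm_num)]
        norm_num
      rw [h6, h7, ← ENNReal.ofReal_add (by norm_num) (by norm_num)]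
      norm_num

/-- the events -/
def Ev (C₀ : ℝ) : ℕ → Set (ℕ → ℝ)
  | 0 => {a | |a 0| ≤ 2}
  | i + 1 => {a | (fun l => a (2 ^ i + l)) ∈ EA C₀ i}

/-- the coordinates -/
def Sc : ℕ → Set ℕ
  | 0 => {0}
  | i + 1 => {k | 2 ^ i ≤ k ∧ k < 2 ^ (i + 1)}

lemma Ev_dep (C₀ : ℝ) (i : ℕ) : DependsOn (fun a => a ∈ Ev C₀ i) (Sc i) := by
  intro x y hxy
  cases i with
  | zero =>
    have : x 0 = y 0 := hxy 0 rfl
    simp only [Ev, Set.mem_ofPred_eq, this]
  | succ i =>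
    refine EA_dep C₀ i (x := fun l => x (2 ^ i + l)) (y := fun l => y (2 ^ i + l)) ?_
    intro l hl
    have hl' : l < 2 ^ i := hl
    apply hxy
    show 2 ^ i ≤ 2 ^ i + l ∧ 2 ^ i + l < 2 ^ (i + 1)
    rw [pow_succ]
    omega

lemma Sc_disj (i j : ℕ) (hij : i ≠ j) : Disjoint (Sc i) (Sc j) := by
  rw [Set.disjoint_left]
  intro k hi hj
  cases i with
  | zero =>
    cases j with
    | zero => exact hij rfl
    | succ j =>
      have h1 : k = 0 := hi
      have h2 : 2 ^ j ≤ k := hj.1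
      have h3 : 0 < 2 ^ j := by positivity
      omega
  | succ i =>
    cases j with
    | zero =>
      have h1 : k = 0 := hj
      have h2 : 2 ^ i ≤ k := hi.1
      have h3 : 0 < 2 ^ i := by positivity
      omega
    | succ j =>
      have h1 : 2 ^ i < 2 ^ (j + 1) := lt_of_le_of_lt hi.1 hj.2
      have h2 : 2 ^ j < 2 ^ (i + 1) := lt_of_le_of_lt hj.1 hi.2
      rw [Nat.pow_lt_pow_iff_right (by norm_num)] at h1 h2
      omega

theorem blk (hB : S_SUPB) (hI : S_INJ) (hN : S_IND) : S_BLK := by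
  obtain ⟨C₀, hC₀, hB⟩ := hB
  refine ⟨2 + 7 * C₀, by positivity, fun M => ?_⟩
  have hmeas : ∀ i, MeasurableSet (Ev C₀ i) := by
    intro i
    cases i with
    | zero =>
      exact measurableSet_le (continuous_abs.measurable.comp (measurable_pi_apply 0))
        measurable_const
    | succ i =>
      have h1 := EA_meas i (hB (2 ^ i) Nat.one_le_two_pow).1
      have h2 : Measurable (fun a : ℕ → ℝ => fun l => a (2 ^ i + l)) :=
        measurable_pi_lambda _ fun l => measurable_pi_apply _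
      exact h2 h1
  have hprob : ∀ i, 2⁻¹ ≤ ga (Ev C₀ i) := by
    intro i
    cases i with
    | zero =>
      apply half_of_compl (hmeas 0)
      have h1 : (Ev C₀ 0)ᶜ ⊆ {a : ℕ → ℝ | 2 < |a 0|} := by
        intro a ha
        have : ¬ |a 0| ≤ 2 := ha
        exact not_le.1 this
      refine (measure_mono h1).trans ((tail 2 (by norm_num) 0).trans ?_)
      have h7 : (2⁻¹ : ENNReal) = ENNReal.ofReal (1 / 2) := by
        rw [one_div, ENNReal.ofReal_inv_of_pos (by norm_num)]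
        norm_num
      rw [h7]
      apply ENNReal.ofReal_le_ofReal
      norm_num
    | succ i =>
      have h1 := hB (2 ^ i) Nat.one_le_two_pow
      have h2 := hI (fun k => 2 ^ i + k) {k | k < 2 ^ i} (fun a _ b _ hab => by
        have : 2 ^ i + a = 2 ^ i + b := hab
        omega) (EA C₀ i) (EA_meas i h1.1) (EA_dep C₀ i)
      have h3 : ga (Ev C₀ (i + 1)) = ga (EA C₀ i) := h2
      rw [h3]
      exact EA_prob i h1.1 h1.2
  have hScsub : ∀ i < M + 1, Sc i ⊆ {k | k < 2 ^ M} := by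
    intro i hi k hk
    cases i with
    | zero =>
      have : k = 0 := hk
      rw [this]
      exact Nat.two_pow_pos M
    | succ i => exact lt_of_lt_of_le hk.2 (Nat.pow_le_pow_right (by norm_num) (by omega))
  refine ⟨⋂ i ∈ range (M + 1), Ev C₀ i, ?_, ?_, ?_, ?_, ?_⟩
  · exact (range (M + 1)).measurableSet_biInter fun i _ => hmeas i
  · intro x y hxy
    simp only [Set.mem_iInter]
    apply propext
    have : ∀ i ∈ range (M + 1), (x ∈ Ev C₀ i) = (y ∈ Ev C₀ i) := fun i hi =>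
      Ev_dep C₀ i (fun k hk => hxy k (hScsub i (mem_range.1 hi) hk))
    exact ⟨fun h i hi => this i hi ▸ h i hi, fun h i hi => (this i hi).symm ▸ h i hi⟩
  · intro a ha
    rw [Set.mem_iInter₂] at ha ⊢
    intro i hi
    have h1 := ha i hi
    cases i with
    | zero =>
      show |-a 0| ≤ 2
      rw [abs_neg]; exact h1
    | succ i => exact EA_neg h1
  · rw [hN (M + 1) (Ev C₀) Sc (fun i _ => ⟨hmeas i, Ev_dep C₀ i⟩) (fun i _ j _ => Sc_disj i j)]
    calc (2⁻¹ : ENNReal) ^ (M + 1) = ∏ i ∈ range (M + 1), 2⁻¹ := by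
          rw [prod_const, card_range]
      _ ≤ _ := prod_le_prod' fun i _ => hprob i
  · intro b hb
    rw [Set.mem_iInter₂] at hb
    have hb0 : |b 0| ≤ 2 := hb 0 (mem_range.2 (Nat.succ_pos M))
    have hbi : ∀ i < M, (fun l => b (2 ^ i + l)) ∈ EA C₀ i := fun i hi =>
      hb (i + 1) (mem_range.2 (by omega))
    have hsum : ∀ y : ℝ, |y| ≤ 1 →
        |pol b (2 ^ M) y| ≤ 2 + C₀ * ∑ i ∈ range M, Real.sqrt 2 ^ i * |y| ^ (2 ^ i) := by
      intro y hy
      rw [pol_dec]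
      refine (abs_add_le _ _).trans (add_le_add hb0 ?_)
      refine (abs_sum_le_sum_abs _ _).trans ?_
      rw [mul_sum]
      apply sum_le_sum
      intro i hi
      have h1 := (hbi i (mem_range.1 hi)).1 y hy
      rw [sq2] at h1
      rw [abs_mul, abs_pow]
      calc |y| ^ 2 ^ i * |pol (fun l => b (2 ^ i + l)) (2 ^ i) y|
          ≤ |y| ^ 2 ^ i * (C₀ * Real.sqrt 2 ^ i) := mul_le_mul_of_nonneg_left h1 (by positivity)
        _ = C₀ * (Real.sqrt 2 ^ i * |y| ^ 2 ^ i) := by ring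
    refine ⟨?_, ?_, ?_⟩
    · intro y hy0 hy1
      have ht : 0 < Real.sqrt (1 - y) := Real.sqrt_pos.2 (by linarith)
      have ht1 : Real.sqrt (1 - y) ≤ 1 := Real.sqrt_le_one.2 (by linarith)
      have h1 := hsum y (by rw [abs_of_nonneg hy0]; exact hy1.le)
      rw [abs_of_nonneg hy0] at h1
      rw [le_div_iff₀ ht]
      have h2 := key hy0 hy1 M
      have h3 : Real.sqrt 2 ^ M * Real.sqrt (1 - y) / (1 + Real.sqrt 2 ^ M * Real.sqrt (1 - y)) ≤ 1 := by
        rw [div_le_one (by positivity)]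
        linarith
      calc |pol b (2 ^ M) y| * Real.sqrt (1 - y)
          ≤ (2 + C₀ * ∑ i ∈ range M, Real.sqrt 2 ^ i * y ^ (2 ^ i)) * Real.sqrt (1 - y) :=
            mul_le_mul_of_nonneg_right h1 ht.le
        _ = 2 * Real.sqrt (1 - y) +
            C₀ * ((∑ i ∈ range M, Real.sqrt 2 ^ i * y ^ (2 ^ i)) * Real.sqrt (1 - y)) := by ring
        _ ≤ 2 * 1 + C₀ * 7 := by
            apply add_le_add
            · linarith
            · apply mul_le_mul_of_nonneg_left _ hC₀.le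
              linarith
        _ = 2 + 7 * C₀ := by ring
    · intro y hy
      have h1 := hsum y hy
      rw [sq2]
      have h2 : ∑ i ∈ range M, Real.sqrt 2 ^ i * |y| ^ (2 ^ i) ≤ ∑ i ∈ range M, Real.sqrt 2 ^ i := by
        apply sum_le_sum
        intro i _
        have : |y| ^ (2 ^ i) ≤ 1 := pow_le_one₀ (abs_nonneg y) hy
        have h3 : 0 ≤ Real.sqrt 2 ^ i := by positivity
        nlinarith
      have h3 := geo M
      have h4 : 1 ≤ Real.sqrt 2 ^ M := by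
        apply one_le_pow₀
        rw [Real.one_le_sqrt]
        norm_num
      have h5 : C₀ * ∑ i ∈ range M, Real.sqrt 2 ^ i * |y| ^ (2 ^ i) ≤ C₀ * (3 * Real.sqrt 2 ^ M) :=
        mul_le_mul_of_nonneg_left (h2.trans h3) hC₀.le
      nlinarith
    · intro k hk
      have h2M : (1 : ℝ) ≤ ((2 ^ M : ℕ) : ℝ) := by exact_mod_cast Nat.one_le_two_pow
      have hbk : |b k| ≤ 2 * ((2 ^ M : ℕ) : ℝ) := by
        rcases Nat.eq_zero_or_pos k with rfl | hk0
        · linarith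
        · have h5 : 2 ^ Nat.log 2 k ≤ k := Nat.pow_log_le_self 2 hk0.ne'
          have h6 : k < 2 ^ (Nat.log 2 k + 1) := Nat.lt_pow_succ_log_self (by norm_num) k
          have h7 : Nat.log 2 k < M := by
            have : 2 ^ Nat.log 2 k < 2 ^ M := lt_of_le_of_lt h5 hk
            rwa [Nat.pow_lt_pow_iff_right (by norm_num)] at this
          rw [pow_succ] at h6
          have h8 := (hbi _ h7).2 (k - 2 ^ Nat.log 2 k) (by omega)
          have h9 : 2 ^ Nat.log 2 k + (k - 2 ^ Nat.log 2 k) = k := by omega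
          simp only [h9] at h8
          refine h8.trans ?_
          have h10 : ((2 ^ Nat.log 2 k : ℕ) : ℝ) ≤ ((2 ^ M : ℕ) : ℝ) := by
            exact_mod_cast Nat.pow_le_pow_right (by norm_num) h7.le
          linarith
      nlinarith

end Pool.Agent.W465.KZ
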